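import Pool.Agent.Odp2.Vol.FujitaDim
import Pool.Agent.Odp2.Vol.Count

/-!
# The degree filtration of a germ (for `Vol/Fujita`)
-/

open MvPolynomial Pool.Agent.ODP
open scoped Classical

namespace Pool.Agent.Odp2.Fujita

variable {n d : ℕ} {B : Type} [CommRing B] [Algebra ℂ B] {G : Germ n d B} {w₀ : Fin n → ℂ}

/-! ### a nonzero multiple in the base -/

theorem cf_fsum (c : Fin d → MvPolynomial (Fin n) ℂ) :
    G.cf (∑ i, aeval G.y (c i) * G.e i) = c :=
  (G.cf_unique _ c rfl).symm

theorem exists_multiple [IsDomain B] {b : B} (hb : b ≠ 0) :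
    ∃ (b' : B) (p : MvPolynomial (Fin n) ℂ), p ≠ 0 ∧ b * b' = aeval G.y p := by
  set M : Matrix (Fin d) (Fin d) (MvPolynomial (Fin n) ℂ) :=
    Matrix.of fun i j => G.cf (b * G.e j) i with hM
  have hmul : ∀ v : Fin d → MvPolynomial (Fin n) ℂ,
      b * ∑ j, aeval G.y (v j) * G.e j = ∑ i, aeval G.y (M.mulVec v i) * G.e i := by
    intro v
    rw [Finset.mul_sum]
    have h1 : ∀ j, b * (aeval G.y (v j) * G.e j) =
        ∑ i, aeval G.y (M i j * v j) * G.e i := by
      intro j
      have h2 : b * (aeval G.y (v j) * G.e j) = aeval G.y (v j) * (b * G.e j) := by ring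
      rw [h2]
      conv_lhs => rw [G.cf_spec (b * G.e j), Finset.mul_sum]
      refine Finset.sum_congr rfl fun i _ => ?_
      rw [map_mul, hM, Matrix.of_apply]
      ring
    rw [Finset.sum_congr rfl fun j _ => h1 j, Finset.sum_comm]
    refine Finset.sum_congr rfl fun i _ => ?_
    rw [Matrix.mulVec, dotProduct, map_sum, Finset.sum_mul]
  have hdet : M.det ≠ 0 := by
    intro h0
    obtain ⟨v, hv, hMv⟩ := Matrix.exists_mulVec_eq_zero_iff.2 h0
    have h1 := hmul v
    rw [hMv] at h1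
    simp only [Pi.zero_apply, map_zero, zero_mul, Finset.sum_const_zero] at h1
    rcases mul_eq_zero.1 h1 with h2 | h2
    · exact hb h2
    · apply hv
      rw [← cf_fsum (G := G) v, h2, cf_zero]
  set u := G.cf (1 : B) with hu
  refine ⟨∑ j, aeval G.y (M.adjugate.mulVec u j) * G.e j, M.det, hdet, ?_⟩
  rw [hmul, Matrix.mulVec_mulVec, Matrix.mul_adjugate]
  have h1 : ∀ i, ((M.det • (1 : Matrix (Fin d) (Fin d) (MvPolynomial (Fin n) ℂ))).mulVec u) i =
      M.det * u i := by
    intro i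
    rw [Matrix.smul_mulVec, Matrix.one_mulVec, Pi.smul_apply, smul_eq_mul]
  have h2 : ∀ i, aeval G.y (((M.det • (1 : Matrix (Fin d) (Fin d)
      (MvPolynomial (Fin n) ℂ))).mulVec u) i) * G.e i =
      aeval G.y M.det * (aeval G.y (u i) * G.e i) := by
    intro i
    rw [h1, map_mul]
    ring
  rw [Finset.sum_congr rfl fun i _ => h2 i, ← Finset.mul_sum, hu, ← G.cf_spec 1, mul_one]

theorem tau_injective [IsDomain B] {τ : B →ₐ[ℂ] MvPowerSeries (Fin n) ℂ}
    (hτ : ∀ p : MvPolynomial (Fin n) ℂ, τ (aeval (tt G w₀) p) = (p : MvPowerSeries (Fin n) ℂ)) :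
    ∀ b, τ b = 0 → b = 0 := by
  intro b hb
  by_contra hne
  obtain ⟨b', p, hp, h1⟩ := exists_multiple (G := G) hne
  have h2 : τ (aeval G.y p) = 0 := by rw [← h1, map_mul, hb, zero_mul]
  have h3 : aeval G.y p = aeval (tt G w₀) (sh w₀ p) := by rw [aeval_tt, sh'_sh]
  rw [h3, hτ] at h2
  have h4 : sh w₀ p = 0 := by
    have : ((sh w₀ p : MvPolynomial (Fin n) ℂ) : MvPowerSeries (Fin n) ℂ) =
        ((0 : MvPolynomial (Fin n) ℂ) : MvPowerSeries (Fin n) ℂ) := by
      rw [h2, MvPolynomial.coe_zero]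
    exact MvPolynomial.coe_injective (Fin n) ℂ this
  apply hp
  rw [← sh'_sh (w₀ := w₀) p, h4, map_zero]

/-! ### the filtration -/

/-- the elements with coordinates of total degree at most `D` -/
def VD (G : Germ n d B) (D : ℕ) : Submodule ℂ B where
  carrier := {b | ∀ i, G.cf b i ∈ restrictTotalDegree (Fin n) ℂ D}
  add_mem' := by
    intro a b ha hb i
    rw [cf_add]
    exact Submodule.add_mem _ (ha i) (hb i)
  zero_mem' := by
    intro i
    rw [cf_zero]
    exact Submodule.zero_mem _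
  smul_mem' := by
    intro c b hb i
    rw [cf_smul]
    exact Submodule.smul_mem _ c (hb i)

theorem mem_VD {D : ℕ} {b : B} : b ∈ VD G D ↔ ∀ i, (G.cf b i).totalDegree ≤ D := by
  refine forall_congr' fun i => ?_
  exact mem_restrictTotalDegree _ _ _

theorem VD_mono {D D' : ℕ} (h : D ≤ D') : VD G D ≤ VD G D' := by
  intro b hb
  rw [mem_VD] at *
  exact fun i => (hb i).trans h

/-- the coordinates -/
noncomputable def vdEquiv (G : Germ n d B) (D : ℕ) :
    VD G D ≃ₗ[ℂ] (Fin d → restrictTotalDegree (Fin n) ℂ D) where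
  toFun b i := ⟨G.cf b i, b.2 i⟩
  map_add' := by
    intro a b
    funext i
    apply Subtype.ext
    change G.cf ((a : B) + b) i = G.cf a i + G.cf b i
    rw [cf_add]
    rfl
  map_smul' := by
    intro c b
    funext i
    apply Subtype.ext
    change G.cf (c • (b : B)) i = c • G.cf b i
    rw [cf_smul]
    rfl
  invFun c := ⟨∑ i, aeval G.y (c i : MvPolynomial (Fin n) ℂ) * G.e i, by
    intro i
    rw [cf_fsum]
    exact (c i).2⟩
  left_inv := by
    intro b
    apply Subtype.ext
    exact (G.cf_spec b).symm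
  right_inv := by
    intro c
    funext i
    apply Subtype.ext
    change G.cf (∑ i, aeval G.y (c i : MvPolynomial (Fin n) ℂ) * G.e i) i = c i
    rw [cf_fsum]

instance (G : Germ n d B) (D : ℕ) : FiniteDimensional ℂ (VD G D) :=
  Module.Finite.equiv (vdEquiv G D).symm

/-- the number of monomials of degree at most `D` -/
noncomputable def nmon (n D : ℕ) : ℕ := {m : Fin n → ℕ | ∑ j, 1 * m j < D + 1}.ncard

theorem finrank_restrict (D : ℕ) :
    Module.finrank ℂ (restrictTotalDegree (Fin n) ℂ D) = nmon n D := by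
  have h1 := Module.finrank_eq_nat_card_basis
    (basisRestrictSupport (σ := Fin n) ℂ { m | (m.sum fun _ e => e) ≤ D })
  unfold restrictTotalDegree
  rw [h1, nmon, ← Nat.card_coe_set_eq]
  apply Nat.card_congr
  refine (Finsupp.equivFunOnFinite (α := Fin n) (M := ℕ)).subtypeEquiv ?_
  intro m
  have h2 : (m.sum fun _ e => e) = ∑ j, m j := Finsupp.sum_fintype _ _ fun _ => rfl
  simp only [Set.mem_ofPred_eq, one_mul, Finsupp.equivFunOnFinite_apply]
  rw [h2]
  omega

theorem finrank_VD (D : ℕ) : Module.finrank ℂ (VD G D) = d * nmon n D := by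
  rw [(vdEquiv G D).finrank_eq, Module.finrank_pi_fintype]
  simp only [finrank_restrict]
  rw [Finset.sum_const, Finset.card_univ, Fintype.card_fin, smul_eq_mul]

theorem totalDegree_sum_le {ι : Type*} (s : Finset ι) (f : ι → MvPolynomial (Fin n) ℂ) (D : ℕ)
    (h : ∀ i ∈ s, (f i).totalDegree ≤ D) : (∑ i ∈ s, f i).totalDegree ≤ D := by
  rw [← mem_restrictTotalDegree]
  exact Submodule.sum_mem _ fun i hi => (mem_restrictTotalDegree _ _ _).2 (h i hi)

/-- a bound for the degrees of the structure constants -/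
theorem exists_const (G : Germ n d B) : ∃ c : ℕ, 1 ≤ c ∧ (∀ i j l, (G.cf (G.e i * G.e j) l).totalDegree ≤ c) ∧
    ∀ i, (G.cf (1 : B) i).totalDegree ≤ c := by
  refine ⟨1 + (∑ i, ∑ j, ∑ l, (G.cf (G.e i * G.e j) l).totalDegree) +
    ∑ i, (G.cf (1 : B) i).totalDegree, by omega, fun i j l => ?_, fun i => ?_⟩
  · have h1 : (G.cf (G.e i * G.e j) l).totalDegree ≤
        ∑ l, (G.cf (G.e i * G.e j) l).totalDegree :=
      Finset.single_le_sum (f := fun l => (G.cf (G.e i * G.e j) l).totalDegree)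
        (fun _ _ => Nat.zero_le _) (Finset.mem_univ l)
    have h2 : ∑ l, (G.cf (G.e i * G.e j) l).totalDegree ≤
        ∑ j, ∑ l, (G.cf (G.e i * G.e j) l).totalDegree :=
      Finset.single_le_sum (f := fun j => ∑ l, (G.cf (G.e i * G.e j) l).totalDegree)
        (fun _ _ => Nat.zero_le _) (Finset.mem_univ j)
    have h3 : ∑ j, ∑ l, (G.cf (G.e i * G.e j) l).totalDegree ≤
        ∑ i, ∑ j, ∑ l, (G.cf (G.e i * G.e j) l).totalDegree :=
      Finset.single_le_sum (f := fun i => ∑ j, ∑ l, (G.cf (G.e i * G.e j) l).totalDegree)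
        (fun _ _ => Nat.zero_le _) (Finset.mem_univ i)
    omega
  · have h1 : (G.cf (1 : B) i).totalDegree ≤ ∑ i, (G.cf (1 : B) i).totalDegree :=
      Finset.single_le_sum (f := fun i => (G.cf (1 : B) i).totalDegree)
        (fun _ _ => Nat.zero_le _) (Finset.mem_univ i)
    omega

theorem VD_mul {c : ℕ} (hc : ∀ i j l, (G.cf (G.e i * G.e j) l).totalDegree ≤ c) {D D' : ℕ}
    {b b' : B} (hb : b ∈ VD G D) (hb' : b' ∈ VD G D') : b * b' ∈ VD G (D + D' + c) := by
  rw [mem_VD] at *
  intro l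
  have h1 : b * b' = ∑ i, ∑ j, aeval G.y (G.cf b i * G.cf b' j) * (G.e i * G.e j) := by
    conv_lhs => rw [G.cf_spec b, G.cf_spec b', Finset.sum_mul_sum]
    refine Finset.sum_congr rfl fun i _ => Finset.sum_congr rfl fun j _ => ?_
    rw [map_mul]
    ring
  rw [h1, cf_sum, Finset.sum_apply]
  apply totalDegree_sum_le
  intro i _
  rw [cf_sum, Finset.sum_apply]
  apply totalDegree_sum_le
  intro j _
  rw [cf_mul]
  refine (totalDegree_mul _ _).trans ?_
  refine add_le_add ((totalDegree_mul _ _).trans (add_le_add (hb i) (hb' j))) (hc i j l)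

theorem aeval_mem_VD {c : ℕ} (hc : ∀ i, (G.cf (1 : B) i).totalDegree ≤ c)
    {p : MvPolynomial (Fin n) ℂ} {D : ℕ} (hp : p.totalDegree ≤ D) :
    aeval G.y p ∈ VD G (D + c) := by
  rw [mem_VD]
  intro i
  rw [← mul_one (aeval G.y p), cf_mul]
  exact (totalDegree_mul _ _).trans (add_le_add hp (hc i))

/-! ### surjectivity onto the quotients -/

theorem pow_map_le {I : Ideal B} {N : ℕ}
    (hI : ∀ m : Fin n → ℕ, N ≤ ∑ j, m j → ∏ j, G.y j ^ m j ∈ I) (k : ℕ) :
    (idealOfVars (Fin n) ℂ ^ (N * k)).map (aeval G.y : MvPolynomial (Fin n) ℂ →ₐ[ℂ] B).toRingHom ≤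
      I ^ k := by
  rw [pow_mul, Ideal.map_pow]
  apply Ideal.pow_right_mono
  rw [pow_idealOfVars_eq_span, Ideal.map_span, Ideal.span_le]
  rintro _ ⟨_, ⟨m, hm, rfl⟩, rfl⟩
  have h1 : (aeval G.y : MvPolynomial (Fin n) ℂ →ₐ[ℂ] B).toRingHom (monomial m (1 : ℂ)) =
      ∏ j, G.y j ^ m j := by
    change aeval G.y (monomial m (1 : ℂ)) = _
    rw [aeval_monomial, map_one, one_mul, Finsupp.prod_fintype _ _ fun _ => pow_zero _]
  rw [h1]
  apply hI
  have h2 : m.degree = ∑ j, m j := Finsupp.degree_eq_sum m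
  have h3 : m.degree = N := hm
  omega

theorem exists_trunc (p : MvPolynomial (Fin n) ℂ) (D : ℕ) :
    ∃ q : MvPolynomial (Fin n) ℂ, q.totalDegree ≤ D ∧ p - q ∈ idealOfVars (Fin n) ℂ ^ (D + 1) := by
  refine ⟨∑ m ∈ p.support.filter fun m => m.degree ≤ D, monomial m (coeff m p), ?_, ?_⟩
  · apply totalDegree_sum_le
    intro m hm
    rw [Finset.mem_filter] at hm
    refine (totalDegree_monomial_le _ _).trans ?_
    have h2 : (m.sum fun _ => id) = m.degree := by
      rw [Finsupp.degree_eq_sum]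
      exact Finsupp.sum_fintype _ _ fun _ => rfl
    rw [h2]
    exact hm.2
  · rw [mem_pow_idealOfVars_iff']
    intro m hm
    rw [coeff_sub, coeff_sum]
    by_cases hmp : m ∈ p.support
    · rw [Finset.sum_eq_single m]
      · simp
      · intro m' _ hne
        rw [coeff_monomial, if_neg hne]
      · intro hnot
        exact absurd (Finset.mem_filter.2 ⟨hmp, by omega⟩) hnot
    · rw [notMem_support_iff.1 hmp, Finset.sum_eq_zero, sub_zero]
      intro m' hm'
      rw [Finset.mem_filter] at hm'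
      rw [coeff_monomial, if_neg]
      rintro rfl
      exact hmp hm'.1

theorem VD_sup {I : Ideal B} {D : ℕ}
    (hI : (idealOfVars (Fin n) ℂ ^ (D + 1)).map
      (aeval G.y : MvPolynomial (Fin n) ℂ →ₐ[ℂ] B).toRingHom ≤ I) (b : B) :
    ∃ v ∈ VD G D, b - v ∈ I := by
  choose q hq hq' using fun i => exists_trunc (G.cf b i) D
  refine ⟨∑ i, aeval G.y (q i) * G.e i, ?_, ?_⟩
  · rw [mem_VD, cf_fsum]
    exact hq
  · have h1 : b - ∑ i, aeval G.y (q i) * G.e i = ∑ i, aeval G.y (G.cf b i - q i) * G.e i := by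
      conv_lhs => rw [G.cf_spec b]
      rw [← Finset.sum_sub_distrib]
      refine Finset.sum_congr rfl fun i _ => ?_
      rw [map_sub]
      ring
    rw [h1]
    apply Ideal.sum_mem
    intro i _
    apply Ideal.mul_mem_right
    apply hI
    exact Ideal.mem_map_of_mem _ (hq' i)

/-- The colength of an ideal in terms of a finite dimensional space which maps onto the
quotient. -/
theorem colength_eq {I : Ideal B} (V : Submodule ℂ B) [FiniteDimensional ℂ V]
    (hV : ∀ b : B, ∃ v ∈ V, b - v ∈ I) :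
    colength ℂ I + Module.finrank ℂ (V ⊓ I.restrictScalars ℂ : Submodule ℂ B) =
      Module.finrank ℂ V := by
  set g : V →ₗ[ℂ] (B ⧸ I) := (Ideal.Quotient.mkₐ ℂ I).toLinearMap.comp V.subtype with hg
  have hsurj : Function.Surjective g := by
    intro z
    obtain ⟨b, rfl⟩ := Ideal.Quotient.mk_surjective z
    obtain ⟨v, hv, hbv⟩ := hV b
    refine ⟨⟨v, hv⟩, ?_⟩
    change Ideal.Quotient.mk I v = Ideal.Quotient.mk I b
    rw [eq_comm, Ideal.Quotient.eq]
    exact hbv
  have h1 := g.finrank_range_add_finrank_ker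
  rw [LinearMap.range_eq_top.2 hsurj, finrank_top] at h1
  have h2 : Module.finrank ℂ (LinearMap.ker g) =
      Module.finrank ℂ (V ⊓ I.restrictScalars ℂ : Submodule ℂ B) := by
    have h3 : LinearMap.ker g = Submodule.comap V.subtype (V ⊓ I.restrictScalars ℂ) := by
      ext v
      rw [LinearMap.mem_ker, Submodule.mem_comap]
      change Ideal.Quotient.mk I (v : B) = 0 ↔ _
      rw [Ideal.Quotient.eq_zero_iff_mem]
      constructor
      · exact fun h => ⟨v.2, h⟩
      · exact fun h => h.2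
    rw [h3]
    exact (Submodule.comapSubtypeEquivOfLe inf_le_left).finrank_eq
  rw [h2] at h1
  exact h1

end Pool.Agent.Odp2.Fujita
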