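import Pool.Agent.Odp2.Vol.FujitaGeom

/-!
# The growth of iterated sumsets of a fat finite set of exponents (for Lemma L)
-/

open MeasureTheory Set
open scoped ENNReal Pointwise

namespace Pool.Agent.Odp2.Fujita

/-- the convex hull of a finite set of exponents -/
def hull {n : ℕ} (A : Finset (Fin n → ℕ)) : Set (Fin n → ℝ) :=
  {x | ∃ w : (Fin n → ℕ) → ℝ, (∀ a ∈ A, 0 ≤ w a) ∧ ∑ a ∈ A, w a = 1 ∧
    ∀ i, x i = ∑ a ∈ A, w a * (a i : ℝ)}

theorem convex_hull {n : ℕ} (A : Finset (Fin n → ℕ)) : Convex ℝ (hull A) := by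
  rintro x ⟨w, hw0, hw1, hwx⟩ y ⟨v, hv0, hv1, hvy⟩ s t hs ht hst
  refine ⟨fun a => s * w a + t * v a, fun a ha => ?_, ?_, fun i => ?_⟩
  · exact add_nonneg (mul_nonneg hs (hw0 a ha)) (mul_nonneg ht (hv0 a ha))
  · rw [Finset.sum_add_distrib, ← Finset.mul_sum, ← Finset.mul_sum, hw1, hv1]
    linarith
  · simp only [Pi.add_apply, Pi.smul_apply, smul_eq_mul]
    rw [hwx i, hvy i, Finset.mul_sum, Finset.mul_sum, ← Finset.sum_add_distrib]
    refine Finset.sum_congr rfl fun a _ => ?_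
    ring

theorem mem_hull_of_mem {n : ℕ} {A : Finset (Fin n → ℕ)} {z : Fin n → ℕ} (hz : z ∈ A) :
    (fun i => (z i : ℝ)) ∈ hull A := by
  classical
  refine ⟨fun a => if a = z then 1 else 0, fun a _ => ?_, ?_, fun i => ?_⟩
  · dsimp only
    split_ifs <;> norm_num
  · rw [Finset.sum_ite_eq' A z]
    simp [hz]
  · simp [ite_mul, Finset.sum_ite_eq' A z, hz]

theorem hull_nonneg {n : ℕ} {A : Finset (Fin n → ℕ)} {x : Fin n → ℝ} (hx : x ∈ hull A)
    (i : Fin n) : 0 ≤ x i := by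
  obtain ⟨w, hw0, _, hwx⟩ := hx
  rw [hwx i]
  exact Finset.sum_nonneg fun a ha => mul_nonneg (hw0 a ha) (Nat.cast_nonneg _)

theorem hull_box {n : ℕ} {A : Finset (Fin n → ℕ)} {a₀ : Fin n → ℕ} {D : ℕ}
    (hn : 0 < n) (hD : 0 < D) (ha₀ : a₀ ∈ A) (haD : ∀ j, a₀ + Pi.single j D ∈ A)
    (u : Fin n → ℝ) (hu : ∀ i, 0 ≤ u i ∧ u i ≤ (D : ℝ) / n) :
    (fun i => (a₀ i : ℝ)) + u ∈ hull A := by
  have hDr : (0 : ℝ) < D := by exact_mod_cast hD
  have hnr : (0 : ℝ) < n := by exact_mod_cast hn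
  -- convex combination of the vertices
  have h1 : ∀ s : Finset (Fin n), ∀ x : Fin n → ℝ, (∀ i, 0 ≤ x i) → (∑ i ∈ s, x i ≤ D) →
      (∀ i, i ∉ s → x i = 0) → (fun i => (a₀ i : ℝ)) + x ∈ hull A := by
    classical
    intro s x hx0 hxs hxz
    have hinj : ∀ j j' : Fin n, a₀ + Pi.single j D = a₀ + Pi.single j' D → j = j' := by
      intro j j' h
      have h2 := add_left_cancel h
      by_contra hne
      have h3 := congrFun h2 j
      rw [Pi.single_eq_same, Pi.single_eq_of_ne hne] at h3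
      omega
    have hne : ∀ j : Fin n, a₀ + Pi.single j D ≠ a₀ := by
      intro j h
      have h3 := congrFun h j
      rw [Pi.add_apply, Pi.single_eq_same] at h3
      omega
    have hKc := convex_hull A
    -- use the general sum lemma for convex sets with index type Option (Fin n)
    have key : ∑ o : Option (Fin n), (o.elim (1 - (∑ i, x i) / D) fun j => x j / D) •
        ((o.elim (fun i => (a₀ i : ℝ)) fun j => fun i => ((a₀ + Pi.single j D : Fin n → ℕ) i : ℝ)) :
          Fin n → ℝ) ∈ hull A := by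
      apply hKc.sum_mem
      · rintro (_ | j) _
        · simp only [Option.elim_none]
          rw [sub_nonneg, div_le_one hDr]
          calc ∑ i, x i = ∑ i ∈ s, x i := by
                symm
                apply Finset.sum_subset (Finset.subset_univ s)
                intro i _ hi
                exact hxz i hi
            _ ≤ D := hxs
        · simp only [Option.elim_some]
          exact div_nonneg (hx0 j) hDr.le
      · rw [Fintype.sum_option]
        simp only [Option.elim_none, Option.elim_some]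
        rw [← Finset.sum_div]
        ring
      · rintro (_ | j) _
        · exact mem_hull_of_mem ha₀
        · exact mem_hull_of_mem (haD j)
    convert key using 1
    rw [Fintype.sum_option]
    funext i
    simp only [Option.elim_none, Option.elim_some, Pi.add_apply, Pi.smul_apply, smul_eq_mul,
      Finset.sum_apply, Nat.cast_add]
    have h4 : ∑ j : Fin n, x j / D * ((a₀ i : ℝ) + ((Pi.single j D : Fin n → ℕ) i : ℝ)) =
        (∑ j, x j) / D * a₀ i + x i := by
      simp only [mul_add, Finset.sum_add_distrib]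
      rw [← Finset.sum_mul, ← Finset.sum_div]
      congr 1
      rw [Finset.sum_eq_single i]
      · rw [Pi.single_eq_same]
        field_simp
      · intro j _ hj
        rw [Pi.single_eq_of_ne (Ne.symm hj)]
        simp
      · simp
    rw [h4]
    ring
  apply h1 Finset.univ u (fun i => (hu i).1)
  · calc ∑ i, u i ≤ ∑ _i : Fin n, (D : ℝ) / n := Finset.sum_le_sum fun i _ => (hu i).2
      _ = D := by
        rw [Finset.sum_const, Finset.card_univ, Fintype.card_fin, nsmul_eq_mul]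
        field_simp
  · intro i hi
    exact absurd (Finset.mem_univ i) hi

theorem step_nsmul {n : ℕ} {A : Finset (Fin n → ℕ)} {S : ℕ → Set (Fin n → ℕ)}
    (hstep : ∀ k, ∀ s ∈ S k, ∀ a ∈ A, s + a ∈ S (k + 1)) {k : ℕ} {s : Fin n → ℕ} (hs : s ∈ S k)
    {a : Fin n → ℕ} (ha : a ∈ A) (c : ℕ) : s + c • a ∈ S (k + c) := by
  induction c with
  | zero => simpa using hs
  | succ c ih =>
    have h1 := hstep _ _ ih a ha
    have h2 : s + (c + 1) • a = s + c • a + a := by rw [succ_nsmul, add_assoc]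
    rw [h2]
    exact h1

theorem step_sum {n : ℕ} {A : Finset (Fin n → ℕ)} {S : ℕ → Set (Fin n → ℕ)}
    (hstep : ∀ k, ∀ s ∈ S k, ∀ a ∈ A, s + a ∈ S (k + 1)) {ι : Type*} (I : Finset ι)
    (v : ι → Fin n → ℕ) (hv : ∀ i ∈ I, v i ∈ A) (c : ι → ℕ) :
    ∀ {k : ℕ} {s : Fin n → ℕ}, s ∈ S k → s + ∑ i ∈ I, c i • v i ∈ S (k + ∑ i ∈ I, c i) := by
  classical
  induction I using Finset.induction_on with
  | empty =>
    intro k s hs
    simpa using hs
  | insert i I hi ih =>
    intro k s hs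
    rw [Finset.sum_insert hi, Finset.sum_insert hi, ← add_assoc, ← add_assoc]
    apply ih fun j hj => hv j (Finset.mem_insert_of_mem hj)
    exact step_nsmul hstep hs (hv i (Finset.mem_insert_self _ _)) (c i)

/-- The lattice points of `k • hull A`, after a fixed translation, are in the `k + M`-fold sumset. -/
theorem exists_shift {n : ℕ} {A : Finset (Fin n → ℕ)} {a₀ : Fin n → ℕ} (ha₀ : a₀ ∈ A)
    (ha₁ : ∀ j, a₀ + Pi.single j 1 ∈ A) :
    ∃ (M : ℕ) (T₀ : Fin n → ℕ), ∀ (S : ℕ → Set (Fin n → ℕ)), (0 : Fin n → ℕ) ∈ S 0 →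
      (∀ k, ∀ s ∈ S k, ∀ a ∈ A, s + a ∈ S (k + 1)) →
      ∀ (k : ℕ) (z : Fin n → ℕ), (fun i => (z i : ℝ)) ∈ (k : ℝ) • hull A →
        z + T₀ ∈ S (k + M) := by
  classical
  set L : ℕ := ∑ a ∈ A, ∑ i, a i with hL
  have hLa : ∀ a ∈ A, ∀ i, a i ≤ L := by
    intro a ha i
    calc a i ≤ ∑ i, a i := Finset.single_le_sum (fun _ _ => Nat.zero_le _) (Finset.mem_univ i)
      _ ≤ L := Finset.single_le_sum (f := fun a => ∑ i, a i) (fun _ _ => Nat.zero_le _) ha
  set C : ℕ := A.card * L with hC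
  refine ⟨2 * n * C, (fun _ => C) + (2 * n * C) • a₀, ?_⟩
  intro S h0 hstep k z hz
  obtain ⟨x, ⟨w, hw0, hw1, hwx⟩, hxz⟩ := hz
  -- weights lam a = k * w a
  set lam : (Fin n → ℕ) → ℝ := fun a => k * w a with hlam
  have hlam0 : ∀ a ∈ A, 0 ≤ lam a := fun a ha => mul_nonneg (Nat.cast_nonneg _) (hw0 a ha)
  have hlam1 : ∑ a ∈ A, lam a = k := by
    rw [hlam, ← Finset.mul_sum, hw1, mul_one]
  have hlamz : ∀ i, (z i : ℝ) = ∑ a ∈ A, lam a * (a i : ℝ) := by
    intro i
    have h1 := congrFun hxz i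
    simp only [Pi.smul_apply, smul_eq_mul] at h1
    rw [← h1, hwx i, Finset.mul_sum]
    refine Finset.sum_congr rfl fun a _ => ?_
    simp only [hlam]
    ring
  set c : (Fin n → ℕ) → ℕ := fun a => ⌊lam a⌋₊ with hc
  have hcle : ∀ a ∈ A, (c a : ℝ) ≤ lam a := fun a ha => Nat.floor_le (hlam0 a ha)
  have hclt : ∀ a, lam a < c a + 1 := fun a => Nat.lt_floor_add_one _
  have hsumle : ∑ a ∈ A, c a ≤ k := by
    have : ((∑ a ∈ A, c a : ℕ) : ℝ) ≤ k := by
      push_cast
      rw [← hlam1]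
      exact Finset.sum_le_sum hcle
    exact_mod_cast this
  obtain ⟨s, hs⟩ := Nat.exists_eq_add_of_le hsumle
  have hsr : (s : ℝ) = ∑ a ∈ A, (lam a - c a) := by
    rw [Finset.sum_sub_distrib, hlam1]
    have : (k : ℝ) = ((∑ a ∈ A, c a : ℕ) : ℝ) + s := by exact_mod_cast hs
    rw [this]
    push_cast
    ring
  have hsle : s ≤ A.card := by
    have : (s : ℝ) ≤ A.card := by
      rw [hsr]
      calc ∑ a ∈ A, (lam a - c a) ≤ ∑ _a ∈ A, (1 : ℝ) :=
            Finset.sum_le_sum fun a _ => by linarith [hclt a]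
        _ = A.card := by simp
    exact_mod_cast this
  -- the remainder
  have hrle : ∀ i, ∑ a ∈ A, c a * a i ≤ z i := by
    intro i
    have : ((∑ a ∈ A, c a * a i : ℕ) : ℝ) ≤ z i := by
      rw [hlamz i]
      push_cast
      exact Finset.sum_le_sum fun a ha => mul_le_mul_of_nonneg_right (hcle a ha) (Nat.cast_nonneg _)
    exact_mod_cast this
  choose rr hrr using fun i => Nat.exists_eq_add_of_le (hrle i)
  have hrr_le : ∀ i, rr i ≤ C := by
    intro i
    have h1 : (rr i : ℝ) = ∑ a ∈ A, (lam a - c a) * (a i : ℝ) := by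
      have h2 : (z i : ℝ) = ((∑ a ∈ A, c a * a i : ℕ) : ℝ) + rr i := by exact_mod_cast hrr i
      rw [hlamz i] at h2
      push_cast at h2
      have h3 : ∑ a ∈ A, (lam a - c a) * (a i : ℝ) =
          ∑ a ∈ A, lam a * (a i : ℝ) - ∑ a ∈ A, (c a : ℝ) * (a i : ℝ) := by
        rw [← Finset.sum_sub_distrib]
        exact Finset.sum_congr rfl fun a _ => by ring
      rw [h3, h2]
      ring
    have h4 : (rr i : ℝ) ≤ C := by
      rw [h1]
      calc ∑ a ∈ A, (lam a - c a) * (a i : ℝ) ≤ ∑ _a ∈ A, (1 : ℝ) * L := by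
            refine Finset.sum_le_sum fun a ha => ?_
            have h5 : (a i : ℝ) ≤ L := by exact_mod_cast hLa a ha i
            exact mul_le_mul (by linarith [hclt a]) h5 (Nat.cast_nonneg _) zero_le_one
        _ = C := by
          rw [Finset.sum_const, nsmul_eq_mul, hC]
          push_cast
          ring
    exact_mod_cast h4
  have hsa : ∀ i, s * a₀ i ≤ C := fun i => Nat.mul_le_mul hsle (hLa a₀ ha₀ i)
  -- coefficients of a₀ + e_j
  set dd : Fin n → ℕ := fun j => rr j + C - s * a₀ j with hdd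
  have hdd' : ∀ j, dd j + s * a₀ j = rr j + C := fun j => by
    have := hsa j
    simp only [hdd]
    omega
  have hddle : ∀ j, dd j ≤ 2 * C := fun j => by
    have := hrr_le j
    simp only [hdd]
    omega
  have hsumdd : ∑ j, dd j ≤ 2 * n * C := by
    calc ∑ j, dd j ≤ ∑ _j : Fin n, 2 * C := Finset.sum_le_sum fun j _ => hddle j
      _ = 2 * n * C := by
        rw [Finset.sum_const, Finset.card_univ, Fintype.card_fin, smul_eq_mul]
        ring
  obtain ⟨m, hm⟩ := Nat.exists_eq_add_of_le hsumdd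
  -- the element
  have hA1 : (0 : Fin n → ℕ) + ∑ a ∈ A, c a • a ∈ S (0 + ∑ a ∈ A, c a) :=
    step_sum hstep A (fun a => a) (fun a ha => ha) c h0
  have hA2 := step_sum hstep Finset.univ (fun j : Fin n => a₀ + Pi.single j 1)
    (fun j _ => ha₁ j) dd hA1
  have hA3 := step_nsmul hstep hA2 ha₀ (s + m)
  have e1 : (0 : Fin n → ℕ) + ∑ a ∈ A, c a • a + ∑ j, dd j • (a₀ + Pi.single j 1) +
      (s + m) • a₀ = z + ((fun _ => C) + (2 * n * C) • a₀) := by
    funext i
    simp only [Pi.add_apply, Finset.sum_apply, Pi.smul_apply, smul_eq_mul, zero_add]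
    have h1 : ∑ j, dd j * (a₀ i + (Pi.single j 1 : Fin n → ℕ) i) = (∑ j, dd j) * a₀ i + dd i := by
      simp only [mul_add, Finset.sum_add_distrib]
      rw [← Finset.sum_mul]
      congr 1
      rw [Finset.sum_eq_single i]
      · rw [Pi.single_eq_same, mul_one]
      · intro j _ hj
        rw [Pi.single_eq_of_ne (Ne.symm hj), mul_zero]
      · simp
    rw [h1, hrr i, hm]
    have h2 := hdd' i
    nlinarith [h2]
  have e2 : 0 + ∑ a ∈ A, c a + ∑ j, dd j + (s + m) = k + 2 * n * C := by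
    rw [hs, hm]
    ring
  rw [e1, e2] at hA3
  exact hA3

/-- The growth of sumsets of a fat finite set of exponents: `#A (k - n/D)^n ≤ (1 + n/D)^n #S_{k+M}`. -/
theorem sumset_card {n : ℕ} (hn : 0 < n) {A : Finset (Fin n → ℕ)} {a₀ : Fin n → ℕ} {D : ℕ}
    (hD : 0 < D) (ha₀ : a₀ ∈ A) (ha₁ : ∀ j, a₀ + Pi.single j 1 ∈ A)
    (haD : ∀ j, a₀ + Pi.single j D ∈ A) :
    ∃ M : ℕ, ∀ (S : ℕ → Set (Fin n → ℕ)), (0 : Fin n → ℕ) ∈ S 0 →
      (∀ k, ∀ s ∈ S k, ∀ a ∈ A, s + a ∈ S (k + 1)) →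
      ∀ k : ℕ, (n : ℝ) / D < k → ∀ T : Finset (Fin n → ℕ), (∀ s ∈ S (k + M), s ∈ T) →
        (A.card : ℝ) * ((k : ℝ) - n / D) ^ n ≤ (1 + (n : ℝ) / D) ^ n * T.card := by
  classical
  obtain ⟨M, T₀, hM⟩ := exists_shift ha₀ ha₁
  refine ⟨M, fun S h0 hstep k hk T hT => ?_⟩
  have hDr : (0 : ℝ) < D := by exact_mod_cast hD
  have hnr : (0 : ℝ) < n := by exact_mod_cast hn
  have hr : (0 : ℝ) < (D : ℝ) / n := by positivity
  have hinv : 1 / ((D : ℝ) / n) = (n : ℝ) / D := by field_simp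
  have hbox := hull_box hn hD ha₀ haD
  have h1 := card_le_volume A (convex_hull A) (fun z hz => mem_hull_of_mem hz)
    (a := fun i => (a₀ i : ℝ)) hr hbox
  -- the set of lattice points of k • hull A
  have hfin : {z : Fin n → ℕ | (fun i => (z i : ℝ)) ∈ (k : ℝ) • hull A}.Finite := by
    have hinj : Function.Injective fun z : Fin n → ℕ => z + T₀ := fun z w h => add_right_cancel h
    refine Set.Finite.of_finite_image ((T.finite_toSet).subset ?_) hinj.injOn
    rintro _ ⟨z, hz, rfl⟩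
    exact hT _ (hM S h0 hstep k z hz)
  set G : Finset (Fin n → ℕ) := hfin.toFinset with hG
  have h2 := volume_le_card (convex_hull A) (fun x hx i => hull_nonneg hx i)
    (a := fun i => (a₀ i : ℝ)) hr hbox (t := (k : ℝ)) (by rw [hinv]; exact hk) G
    (fun z hz => by rw [hG, Set.Finite.mem_toFinset]; exact hz)
  have h3 : G.card ≤ T.card := by
    have hinj : Function.Injective fun z : Fin n → ℕ => z + T₀ := fun z w h => add_right_cancel h
    apply Finset.card_le_card_of_injOn (fun z => z + T₀)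
    · intro z hz
      rw [hG, Set.Finite.coe_toFinset] at hz
      exact hT _ (hM S h0 hstep k z hz)
    · exact hinj.injOn
  rw [hinv] at h1 h2
  have hkp : (0 : ℝ) < (k : ℝ) - n / D := by linarith
  have h4 : (A.card : ℝ≥0∞) * ENNReal.ofReal (((k : ℝ) - n / D) ^ n) ≤
      ENNReal.ofReal ((1 + (n : ℝ) / D) ^ n) * (T.card : ℝ≥0∞) := by
    calc (A.card : ℝ≥0∞) * ENNReal.ofReal (((k : ℝ) - n / D) ^ n)
        ≤ ENNReal.ofReal ((1 + (n : ℝ) / D) ^ n) * volume (hull A) *
            ENNReal.ofReal (((k : ℝ) - n / D) ^ n) := by gcongr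
      _ = ENNReal.ofReal ((1 + (n : ℝ) / D) ^ n) *
            (ENNReal.ofReal (((k : ℝ) - n / D) ^ n) * volume (hull A)) := by ring
      _ ≤ ENNReal.ofReal ((1 + (n : ℝ) / D) ^ n) * (G.card : ℝ≥0∞) := by gcongr
      _ ≤ _ := by gcongr
  rw [← ENNReal.ofReal_natCast, ← ENNReal.ofReal_natCast, ← ENNReal.ofReal_mul (Nat.cast_nonneg _),
    ← ENNReal.ofReal_mul (by positivity)] at h4
  exact (ENNReal.ofReal_le_ofReal_iff (by positivity)).1 h4

end Pool.Agent.Odp2.Fujita
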